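import Pool.Agent.N754.FV.Stm

/-!
# Project FV: specialisation of Laurent curves
-/

set_option autoImplicit false

open MvPolynomial

namespace Pool.Agent.N832.FV

open Pool.Agent.H159R3.Exp (Laur)
open Pool.Agent.N754.FV

/-- the numerator of `E(q(s) / s ^ M0)` -/
noncomputable def num {F A : Type} [Field F] [CommRing A] [Algebra F A] {n : ℕ} (M0 : ℕ)
    (q : Fin n → Polynomial A) (E : MvPolynomial (Fin n) F) : Polynomial A :=
  ∑ d ∈ E.support, Polynomial.C (algebraMap F A (E.coeff d)) *
    (Polynomial.X ^ (M0 * (E.totalDegree - ∑ i, d i)) * ∏ i, q i ^ d i)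

theorem eval_num {F A B : Type} [Field F] [CommRing A] [Algebra F A] [Field B] [Algebra F B]
    {n : ℕ} (M0 : ℕ) (q : Fin n → Polynomial A) (E : MvPolynomial (Fin n) F) (ψ : A →ₐ[F] B)
    (s : B) (hs : s ≠ 0) :
    ((num M0 q E).map (ψ : A →+* B)).eval s =
      aeval (fun j => ((q j).map (ψ : A →+* B)).eval s / s ^ M0) E * s ^ (M0 * E.totalDegree) := by
  rw [MvPolynomial.aeval_def, MvPolynomial.eval₂_eq', Finset.sum_mul]
  unfold num
  rw [Polynomial.map_sum, Polynomial.eval_finsetSum]
  refine Finset.sum_congr rfl fun d hd => ?_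
  have hle : ∑ i, d i ≤ E.totalDegree := by
    have h1 := MvPolynomial.le_totalDegree hd
    rw [Finsupp.sum_fintype _ _ (fun _ => rfl)] at h1
    exact h1
  rw [Polynomial.map_mul, Polynomial.map_mul, Polynomial.map_pow, Polynomial.map_X,
    Polynomial.map_C, Polynomial.map_prod, Polynomial.eval_mul, Polynomial.eval_mul,
    Polynomial.eval_pow, Polynomial.eval_X, Polynomial.eval_C, Polynomial.eval_prod]
  have e1 : (ψ : A →+* B) (algebraMap F A (E.coeff d)) = algebraMap F B (E.coeff d) :=
    ψ.commutes _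
  rw [e1]
  have e2 : ∏ i, (((q i).map (ψ : A →+* B)).eval s / s ^ M0) ^ d i =
      (∏ i, ((q i).map (ψ : A →+* B)).eval s ^ d i) / s ^ (M0 * ∑ i, d i) := by
    simp_rw [div_pow]
    rw [Finset.prod_div_distrib, Finset.mul_sum, ← Finset.prod_pow_eq_pow_sum]
    congr 1
    refine Finset.prod_congr rfl fun i _ => ?_
    rw [pow_mul]
  have e3 : s ^ (M0 * E.totalDegree) = s ^ (M0 * (E.totalDegree - ∑ i, d i)) * s ^ (M0 * ∑ i, d i) := by
    rw [← pow_add, ← mul_add, Nat.sub_add_cancel hle]
  have e4 : ∏ i, (Polynomial.map (ψ : A →+* B) (q i ^ d i)).eval s =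
      ∏ i, ((q i).map (ψ : A →+* B)).eval s ^ d i := by
    refine Finset.prod_congr rfl fun i _ => ?_
    rw [Polynomial.map_pow, Polynomial.eval_pow]
  rw [e2, e3, e4]
  field_simp

theorem spl (h : SPE) : SPL := by
  classical
  intro F Ω M _ _ _ _ _ _ _ ι n E G v hv hE hne hG
  have : CharZero M := charZero_of_injective_algebraMap (algebraMap F M).injective
  have : CharZero Ω := charZero_of_injective_algebraMap (algebraMap F Ω).injective
  obtain ⟨M0, Q, hQ⟩ := Laur.common v hv
  set T : Finset M := Finset.univ.biUnion fun j => (Q j).coeffs with hT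
  set A := Algebra.adjoin F (T : Set M) with hA
  have hlift : ∀ j, ∃ q : Polynomial A, q.map (A.val : A →+* M) = Q j := by
    intro j
    have : Q j ∈ Polynomial.lifts (A.val : A →+* M) := by
      rw [Polynomial.lifts_iff_coeff_lifts]
      intro m
      by_cases h0 : (Q j).coeff m = 0
      · exact ⟨0, by simp [h0]⟩
      · refine ⟨⟨(Q j).coeff m, Algebra.subset_adjoin ?_⟩, rfl⟩
        rw [hT, Finset.coe_biUnion, Set.mem_iUnion₂]
        exact ⟨j, by simp, Polynomial.coeff_mem_coeffs h0⟩
    exact (Polynomial.mem_lifts _).1 this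
  choose q hq using hlift
  obtain ⟨j0, hj0⟩ := hne
  -- the curve over `M` in terms of `q`
  have hvq : ∀ s : M, s ≠ 0 → v s = fun j => ((q j).map (A.val : A →+* M)).eval s / s ^ M0 := by
    intro s hs
    funext j
    rw [hq j]
    exact hQ s hs j
  set b : A := (((q j0).eval 2) - 2 ^ M0 * (q j0).eval 1) * (num M0 q G).eval 1 with hb
  have hgen : ∀ (B : Type) [Field B] [Algebra F B] [CharZero B] (ψ : A →ₐ[F] B),
      ψ b = (((q j0).map (ψ : A →+* B)).eval 2 / 2 ^ M0 -
        ((q j0).map (ψ : A →+* B)).eval 1 / 1 ^ M0) * 2 ^ M0 *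
        aeval (fun j => ((q j).map (ψ : A →+* B)).eval 1 / 1 ^ M0) G := by
    intro B _ _ _ ψ
    have k1 := eval_num M0 q G ψ 1 one_ne_zero
    simp only [one_pow, mul_one] at k1
    have k2 : (Polynomial.map (ψ : A →+* B) (num M0 q G)).eval 1 = ψ ((num M0 q G).eval 1) := by
      have := Polynomial.eval_map_apply (f := (ψ : A →+* B)) (p := num M0 q G) (x := 1)
      simpa using this
    have k3 : ((q j0).map (ψ : A →+* B)).eval 2 = ψ ((q j0).eval 2) := by
      have := Polynomial.eval_map_apply (f := (ψ : A →+* B)) (p := q j0) (x := 2)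
      simpa [map_ofNat ψ 2] using this
    have k4 : ((q j0).map (ψ : A →+* B)).eval 1 = ψ ((q j0).eval 1) := by
      have := Polynomial.eval_map_apply (f := (ψ : A →+* B)) (p := q j0) (x := 1)
      simpa using this
    have h2 : (ψ 2 : B) = 2 := map_ofNat ψ 2
    have h20 : (2 : B) ^ M0 ≠ 0 := pow_ne_zero _ two_ne_zero
    simp only [one_pow]
    rw [hb, map_mul, map_sub, map_mul, map_pow, ← k2, k1, k3, k4, h2, div_one]
    field_simp
  have hb0 : b ≠ 0 := by
    intro hb0
    have k1 := hgen M A.val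
    rw [hb0, map_zero] at k1
    rw [← hvq 1 one_ne_zero] at k1
    have h2 : v 2 j0 = ((q j0).map (A.val : A →+* M)).eval 2 / 2 ^ M0 := by
      rw [hq j0]; exact hQ 2 two_ne_zero j0
    have h1 : v 1 j0 = ((q j0).map (A.val : A →+* M)).eval 1 / 1 ^ M0 := by
      rw [hq j0]; exact hQ 1 one_ne_zero j0
    rw [← h2, ← h1] at k1
    have h20 : (2 : M) ^ M0 ≠ 0 := pow_ne_zero _ two_ne_zero
    have := mul_ne_zero (mul_ne_zero (sub_ne_zero.2 hj0) h20) hG
    exact this k1.symm
  obtain ⟨φ, hφ⟩ := h F Ω M T b hb0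
  refine ⟨fun s j => ((q j).map (φ : A →+* Ω)).eval s / s ^ M0, ?_, ?_, ?_, ?_⟩
  · intro j
    exact ⟨M0, (q j).map (φ : A →+* Ω), fun t ht => div_mul_cancel₀ _ (pow_ne_zero _ ht)⟩
  · intro l s hs
    have hnum : num M0 q (E l) = 0 := by
      have hinj : Function.Injective (Polynomial.map (A.val : A →+* M)) :=
        Polynomial.map_injective _ Subtype.val_injective
      apply hinj
      rw [Polynomial.map_zero]
      apply Polynomial.eq_zero_of_infinite_isRoot
      refine Set.Infinite.mono (s := {x : M | x ≠ 0}) ?_ ?_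
      · intro x hx
        change Polynomial.eval x _ = 0
        have := eval_num M0 q (E l) A.val x hx
        rw [← hvq x hx, hE l x hx, zero_mul] at this
        exact this
      · exact Set.infinite_of_finite_compl (by simp [Set.compl_ofPred])
    have := eval_num M0 q (E l) φ s hs
    rw [hnum, Polynomial.map_zero, Polynomial.eval_zero] at this
    exact (mul_eq_zero.1 this.symm).resolve_right (pow_ne_zero _ hs)
  · refine ⟨j0, fun heq => hφ ?_⟩
    rw [hgen Ω φ]
    simp only at heq
    rw [heq, sub_self, zero_mul, zero_mul]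
  · intro h0
    apply hφ
    rw [hgen Ω φ]
    have h0' : aeval (fun j => ((q j).map (φ : A →+* Ω)).eval 1 / 1 ^ M0) G = 0 := h0
    rw [h0', mul_zero]

end Pool.Agent.N832.FV
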